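import Mathlib
import Pool.Agent.H217Z.OrbDefs
import Pool.Agent.H217Z.OrbProof

set_option autoImplicit false

namespace Pool.Agent.Results.MP_a78b9e_ag.ACounter

open Pool.Agent.H217Z.Orb

/-- A smooth orbifold pair `(ℙ², c · {F = 0})` whose class `K + D = (-3 + c d) H` is not
pseudo-effective and which is not uniruled. -/
theorem result : ∃ (F : MvPolynomial (Fin 3) ℂ) (d : ℕ) (c : ℚ),
    SmoothCurve F d ∧ 0 < c ∧ c ≤ 1 ∧ ¬ PseudoEffective (-3 + (c : ℝ) * d) ∧ ¬ Uniruled F d c :=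
  ⟨fermat, 20, 1 / 7, fermat_smooth, by norm_num, by norm_num, not_psef (by norm_num),
    not_uniruled⟩

end Pool.Agent.Results.MP_a78b9e_ag.ACounter
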